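import Mathlib

open MeasureTheory Set Filter
open scoped ENNReal

namespace Pool.Agent.Y225.DS

/-- Lebesgue measure on the interval `(0,1]`. -/
noncomputable def mu : Measure ℝ := volume.restrict (Ioc (0:ℝ) 1)

instance : IsProbabilityMeasure mu := ⟨by simp [mu]⟩

lemma ne_one_ae : ∀ᵐ t ∂mu, t ≠ 1 := by
  rw [mu]
  exact ae_restrict_of_ae (by simp [ae_iff])

lemma mem_ae : ∀ᵐ t ∂mu, t ∈ Ioc (0:ℝ) 1 := ae_restrict_mem measurableSet_Ioc

lemma fract_ae : ∀ᵐ t ∂mu, Int.fract t = t := by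
  filter_upwards [mem_ae, ne_one_ae] with t ht h1
  exact Int.fract_eq_self.2 ⟨ht.1.le, lt_of_le_of_ne ht.2 h1⟩

lemma mp (n : ℕ) (hn : n ≠ 0) :
    MeasurePreserving (fun t : ℝ => Int.fract ((n:ℝ) * t)) mu mu := by
  have hmeas : Measurable (fun t : ℝ => Int.fract ((n:ℝ) * t)) :=
    measurable_fract.comp (measurable_const.mul measurable_id)
  refine ⟨hmeas, ?_⟩
  ext s hs
  rw [Measure.map_apply hmeas hs]
  set U : UnitAddCircle → ℝ :=
    fun x => ((AddCircle.equivIco (1:ℝ) 0 x : Set.Ico (0:ℝ) (0+1)) : ℝ) with hU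
  have hU1 : ∀ t : ℝ, U (t : UnitAddCircle) = Int.fract t := by
    intro t
    have := AddCircle.coe_equivIco_mk_apply (1:ℝ) t
    simp only [hU]
    simp
  have hUm : Measurable U :=
    measurable_subtype_coe.comp (AddCircle.measurableEquivIco 1 0).measurable
  have hmk := UnitAddCircle.measurePreserving_mk 0
  rw [zero_add] at hmk
  have hz : MeasurePreserving (fun x : UnitAddCircle => (n:ℤ) • x) volume volume :=
    Measure.measurePreserving_zsmul volume (by exact_mod_cast hn)
  have h1 : (volume.restrict (Ioc (0:ℝ) 1)) ((fun t : ℝ => Int.fract ((n:ℝ) * t)) ⁻¹' s)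
      = volume (U ⁻¹' s) := by
    rw [← hz.measure_preimage (hUm hs).nullMeasurableSet,
      ← hmk.measure_preimage (hz.measurable (hUm hs)).nullMeasurableSet]
    congr 1
    ext t
    simp only [mem_preimage]
    have : ((n:ℤ) • (t : UnitAddCircle)) = (((n:ℝ) * t : ℝ) : UnitAddCircle) := by
      rw [natCast_zsmul, ← AddCircle.coe_nsmul, nsmul_eq_mul]
    rw [this, hU1]
  have h2 : (volume.restrict (Ioc (0:ℝ) 1)) s = volume (U ⁻¹' s) := by
    rw [← hmk.measure_preimage (hUm hs).nullMeasurableSet]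
    apply measure_congr
    have := fract_ae
    rw [mu] at this
    filter_upwards [this] with t ht
    have e : (s t) = ((((fun x : ℝ => (x : UnitAddCircle)) ⁻¹' (U ⁻¹' s))) t) := by
      change (t ∈ s) = (U (t : UnitAddCircle) ∈ s)
      rw [hU1, ht]
    exact e
  rw [mu, h1, h2]

end Pool.Agent.Y225.DS
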