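import Mathlib
import Pool.Agent.Y225.DS.Fract

open MeasureTheory Set Filter
open scoped ENNReal

namespace Pool.Agent.Y225.DS

/-- The `i`-th digit shift of `t`. -/
noncomputable def U (i : ℕ) (t : ℝ) : ℝ := Int.fract (((8 ^ i : ℕ) : ℝ) * t)

lemma U_mp (i : ℕ) : MeasurePreserving (U i) mu mu := mp (8 ^ i) (by positivity)

lemma U_meas (i : ℕ) : Measurable (U i) := (U_mp i).measurable

lemma U_comp {i j : ℕ} (h : i ≤ j) (t : ℝ) :
    U j t = Int.fract (((8 ^ (j - i) : ℕ) : ℝ) * U i t) := by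
  unfold U
  rw [Int.fract_eq_fract]
  refine ⟨(8 ^ (j - i) : ℕ) * ⌊((8 ^ i : ℕ) : ℝ) * t⌋, ?_⟩
  have e : ((8 ^ j : ℕ) : ℝ) = ((8 ^ (j - i) : ℕ) : ℝ) * ((8 ^ i : ℕ) : ℝ) := by
    rw [← Nat.cast_mul, ← pow_add, Nat.sub_add_cancel h]
  rw [e, Int.fract]
  push_cast
  ring

/-- The set where the `i`-th digit shift lies in `(0, α]`. -/
def AA (i : ℕ) (α : ℝ) : Set ℝ := {t | 0 < U i t ∧ U i t ≤ α}

lemma AA_eq (i : ℕ) (α : ℝ) : AA i α = (U i) ⁻¹' (Ioc 0 α) := rfl

lemma AA_meas (i : ℕ) (α : ℝ) : MeasurableSet (AA i α) := by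
  rw [AA_eq]
  exact U_meas i measurableSet_Ioc

lemma AA_measure (i : ℕ) {α : ℝ} (h0 : 0 ≤ α) (h1 : α ≤ 1) : mu.real (AA i α) = α := by
  rw [AA_eq, measureReal_def, (U_mp i).measure_preimage measurableSet_Ioc.nullMeasurableSet, mu,
    Measure.restrict_apply measurableSet_Ioc, Ioc_inter_Ioc]
  simp [h1, h0]

lemma AA_pair {i j : ℕ} (h : i < j) {α β : ℝ} (hα : 0 ≤ α) (hβ : 0 ≤ β) :
    mu.real (AA i α ∩ AA j β) ≤ α * β + β * (1 / 8 : ℝ) ^ (j - i) := by
  set N : ℝ := ((8 ^ (j - i) : ℕ) : ℝ) with hN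
  have hNpos : 0 < N := by rw [hN]; positivity
  have e : AA i α ∩ AA j β = (U i) ⁻¹' {u | (0 < u ∧ u ≤ α) ∧ (0 < Int.fract (N * u) ∧
      Int.fract (N * u) ≤ β)} := by
    ext t
    simp only [AA, mem_inter_iff, mem_ofPred_eq, mem_preimage]
    rw [U_comp h.le t]
  have hms : MeasurableSet {u : ℝ | (0 < u ∧ u ≤ α) ∧ (0 < Int.fract (N * u) ∧
      Int.fract (N * u) ≤ β)} := by
    have h1 : Measurable (fun u : ℝ => Int.fract (N * u)) :=
      measurable_fract.comp (measurable_const.mul measurable_id)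
    have : {u : ℝ | (0 < u ∧ u ≤ α) ∧ (0 < Int.fract (N * u) ∧ Int.fract (N * u) ≤ β)} =
        Ioc 0 α ∩ (fun u : ℝ => Int.fract (N * u)) ⁻¹' (Ioc 0 β) := rfl
    rw [this]
    exact measurableSet_Ioc.inter (h1 measurableSet_Ioc)
  rw [e, measureReal_def, (U_mp i).measure_preimage hms.nullMeasurableSet]
  have hsub : {u : ℝ | (0 < u ∧ u ≤ α) ∧ (0 < Int.fract (N * u) ∧ Int.fract (N * u) ≤ β)} ⊆
      ⋃ k ∈ Finset.range (⌊α * N⌋₊ + 1), Ioc ((k : ℝ) / N) (((k : ℝ) + β) / N) := by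
    rintro u ⟨⟨hu0, hu1⟩, hf0, hf1⟩
    simp only [mem_iUnion, exists_prop]
    have hNu : 0 ≤ N * u := by positivity
    refine ⟨⌊N * u⌋₊, ?_, ?_⟩
    · rw [Finset.mem_range, Nat.lt_succ_iff]
      apply Nat.floor_le_floor
      rw [mul_comm]
      exact mul_le_mul_of_nonneg_right hu1 hNpos.le
    · have hfl : Int.fract (N * u) = N * u - (⌊N * u⌋₊ : ℝ) := by
        rw [Int.fract, natCast_floor_eq_intCast_floor hNu]
      rw [hfl] at hf0 hf1
      constructor
      · rw [div_lt_iff₀ hNpos]; linarith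
      · rw [le_div_iff₀ hNpos]; linarith
  have hv : volume (⋃ k ∈ Finset.range (⌊α * N⌋₊ + 1), Ioc ((k : ℝ) / N) (((k : ℝ) + β) / N)) ≤
      ENNReal.ofReal (α * β + β * (1 / 8 : ℝ) ^ (j - i)) := by
    refine (measure_biUnion_finset_le _ _).trans ?_
    have : ∀ k ∈ Finset.range (⌊α * N⌋₊ + 1),
        volume (Ioc ((k : ℝ) / N) (((k : ℝ) + β) / N)) = ENNReal.ofReal (β / N) := by
      intro k _
      rw [Real.volume_Ioc]
      congr 1
      field_simp
      ring
    rw [Finset.sum_congr rfl this, Finset.sum_const, Finset.card_range, nsmul_eq_mul,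
      ← ENNReal.ofReal_natCast, ← ENNReal.ofReal_mul (by positivity)]
    apply ENNReal.ofReal_le_ofReal
    have h1 : ((⌊α * N⌋₊ + 1 : ℕ) : ℝ) ≤ α * N + 1 := by
      push_cast
      have := Nat.floor_le (show 0 ≤ α * N by positivity)
      linarith
    have h2 : (1 / 8 : ℝ) ^ (j - i) = 1 / N := by
      rw [hN]; push_cast; rw [one_div_pow]
    calc ((⌊α * N⌋₊ + 1 : ℕ) : ℝ) * (β / N) ≤ (α * N + 1) * (β / N) := by gcongr
      _ = α * β + β * (1 / 8 : ℝ) ^ (j - i) := by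
        rw [h2]; field_simp
  have hfin : mu {u : ℝ | (0 < u ∧ u ≤ α) ∧ (0 < Int.fract (N * u) ∧ Int.fract (N * u) ≤ β)} ≤
      ENNReal.ofReal (α * β + β * (1 / 8 : ℝ) ^ (j - i)) :=
    (Measure.restrict_apply_le _ _).trans ((measure_mono hsub).trans hv)
  exact ENNReal.toReal_le_of_le_ofReal (by positivity) hfin

lemma geom_le (j : ℕ) : ∑ i ∈ Finset.range j, (1 / 8 : ℝ) ^ (j - i) ≤ 1 / 7 := by
  induction j with
  | zero => norm_num
  | succ n ih =>
    rw [Finset.sum_range_succ]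
    have : ∑ i ∈ Finset.range n, (1 / 8 : ℝ) ^ (n + 1 - i) =
        (1 / 8) * ∑ i ∈ Finset.range n, (1 / 8 : ℝ) ^ (n - i) := by
      rw [Finset.mul_sum]
      refine Finset.sum_congr rfl fun i hi => ?_
      rw [Finset.mem_range] at hi
      rw [Nat.succ_sub hi.le, pow_succ]
      ring
    rw [this, show n + 1 - n = 1 by omega, pow_one]
    linarith

/-- The number of the events `AA i (α i)`, `i ∈ s`, that happen at `t`. -/
noncomputable def cnt (s : Finset ℕ) (α : ℕ → ℝ) (t : ℝ) : ℝ :=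
  ∑ i ∈ s, (AA i (α i)).indicator (fun _ => (1:ℝ)) t

lemma cnt_int (s : Finset ℕ) (α : ℕ → ℝ) (h0 : ∀ i, 0 ≤ α i) (h1 : ∀ i ∈ s, α i ≤ 1) :
    ∫ t, cnt s α t ∂mu = ∑ i ∈ s, α i := by
  unfold cnt
  rw [integral_finsetSum _ (fun i _ => (integrable_const (1:ℝ)).indicator (AA_meas i _))]
  refine Finset.sum_congr rfl fun i hi => ?_
  rw [integral_indicator_const _ (AA_meas i _), AA_measure i (h0 i) (h1 i hi)]
  simp

lemma cnt_sq_int (s : Finset ℕ) (α : ℕ → ℝ) (h0 : ∀ i, 0 ≤ α i) (h1 : ∀ i ∈ s, α i ≤ 1)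
    (hs : ∑ i ∈ s, α i = 1) :
    ∫ t, (cnt s α t) ^ 2 ∂mu ≤ 2 + 2 / 7 := by
  have e : ∀ t, (cnt s α t) ^ 2 =
      ∑ i ∈ s, ∑ j ∈ s, (AA i (α i) ∩ AA j (α j)).indicator (fun _ => (1:ℝ)) t := by
    intro t
    rw [cnt, sq, Finset.sum_mul_sum]
    refine Finset.sum_congr rfl fun i _ => Finset.sum_congr rfl fun j _ => ?_
    by_cases h1 : t ∈ AA i (α i) <;> by_cases h2 : t ∈ AA j (α j) <;> simp [h1, h2]
  simp_rw [e]
  rw [integral_finsetSum _ (fun i _ => integrable_finsetSum _ (fun j _ =>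
    (integrable_const (1:ℝ)).indicator ((AA_meas i _).inter (AA_meas j _))))]
  have e2 : ∀ i ∈ s, ∫ t, ∑ j ∈ s, (AA i (α i) ∩ AA j (α j)).indicator (fun _ => (1:ℝ)) t ∂mu =
      ∑ j ∈ s, mu.real (AA i (α i) ∩ AA j (α j)) := by
    intro i _
    rw [integral_finsetSum _ (fun j _ =>
      (integrable_const (1:ℝ)).indicator ((AA_meas i _).inter (AA_meas j _)))]
    refine Finset.sum_congr rfl fun j _ => ?_
    rw [integral_indicator_const _ ((AA_meas i _).inter (AA_meas j _))]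
    simp
  rw [Finset.sum_congr rfl e2]
  set c : ℕ → ℕ → ℝ := fun i j => if i < j then (1 / 8 : ℝ) ^ (j - i) else
    if i = j then 1 / 2 else 0 with hc
  have key : ∀ i ∈ s, ∀ j ∈ s, mu.real (AA i (α i) ∩ AA j (α j)) ≤
      α i * α j + c i j * α j + c j i * α i := by
    intro i hi j hj
    rcases lt_trichotomy i j with h | h | h
    · have h3 : c i j = (1 / 8 : ℝ) ^ (j - i) := by simp [hc, h]
      have h4 : c j i = 0 := by
        simp only [hc]
        rw [if_neg (by omega), if_neg (by omega)]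
      rw [h3, h4]
      have := AA_pair h (h0 i) (h0 j)
      nlinarith
    · subst h
      have h3 : c i i = 1 / 2 := by simp [hc]
      rw [inter_self, AA_measure i (h0 i) (h1 i hi), h3]
      nlinarith [h0 i]
    · have h3 : c j i = (1 / 8 : ℝ) ^ (i - j) := by simp [hc, h]
      have h4 : c i j = 0 := by
        simp only [hc]
        rw [if_neg (by omega), if_neg (by omega)]
      rw [h3, h4, inter_comm]
      have := AA_pair h (h0 j) (h0 i)
      nlinarith
  have hcs : ∀ j, ∑ i ∈ s, c i j ≤ 1 / 2 + 1 / 7 := by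
    intro j
    have h2 : ∑ i ∈ s, c i j ≤ ∑ i ∈ Finset.range (j + 1), c i j := by
      have h3 : ∑ i ∈ s, c i j = ∑ i ∈ s.filter (fun i => i ≤ j), c i j := by
        rw [Finset.sum_filter]
        refine Finset.sum_congr rfl fun i _ => ?_
        by_cases h : i ≤ j
        · rw [if_pos h]
        · rw [if_neg h]
          simp only [hc]
          rw [if_neg (by omega), if_neg (by omega)]
      rw [h3]
      apply Finset.sum_le_sum_of_subset_of_nonneg
      · intro i hi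
        rw [Finset.mem_filter] at hi
        rw [Finset.mem_range]
        omega
      · intro i _ _
        simp only [hc]
        split_ifs <;> positivity
    refine h2.trans ?_
    rw [Finset.sum_range_succ]
    have h4 : ∑ i ∈ Finset.range j, c i j = ∑ i ∈ Finset.range j, (1 / 8 : ℝ) ^ (j - i) := by
      refine Finset.sum_congr rfl fun i hi => ?_
      rw [Finset.mem_range] at hi
      simp [hc, hi]
    have h5 : c j j = 1 / 2 := by simp [hc]
    rw [h4, h5]
    have := geom_le j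
    linarith
  calc ∑ i ∈ s, ∑ j ∈ s, mu.real (AA i (α i) ∩ AA j (α j))
      ≤ ∑ i ∈ s, ∑ j ∈ s, (α i * α j + c i j * α j + c j i * α i) :=
        Finset.sum_le_sum fun i hi => Finset.sum_le_sum fun j hj => key i hi j hj
    _ = (∑ i ∈ s, ∑ j ∈ s, α i * α j) + (∑ i ∈ s, ∑ j ∈ s, c i j * α j)
        + ∑ i ∈ s, ∑ j ∈ s, c j i * α i := by
        simp only [Finset.sum_add_distrib]
    _ = 1 + (∑ j ∈ s, (∑ i ∈ s, c i j) * α j) + ∑ i ∈ s, (∑ j ∈ s, c j i) * α i := by
        rw [← Finset.sum_mul_sum, hs, Finset.sum_comm (f := fun i j => c i j * α j)]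
        simp only [Finset.sum_mul, one_mul]
    _ ≤ 1 + (∑ j ∈ s, (1 / 2 + 1 / 7) * α j) + ∑ i ∈ s, (1 / 2 + 1 / 7) * α i := by
        gcongr with j _ i _
        · exact h0 j
        · exact hcs j
        · exact h0 i
        · exact hcs i
    _ = 2 + 2 / 7 := by
        rw [← Finset.mul_sum, hs]; norm_num

lemma cnt_integrable (s : Finset ℕ) (α : ℕ → ℝ) :
    Integrable (cnt s α) mu ∧ Integrable (fun t => (cnt s α t) ^ 2) mu := by
  constructor
  · unfold cnt
    exact integrable_finsetSum _ (fun i _ => (integrable_const (1:ℝ)).indicator (AA_meas i _))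
  · have e : (fun t => (cnt s α t) ^ 2) = fun t =>
        ∑ i ∈ s, ∑ j ∈ s, (AA i (α i) ∩ AA j (α j)).indicator (fun _ => (1:ℝ)) t := by
      ext t
      rw [cnt, sq, Finset.sum_mul_sum]
      refine Finset.sum_congr rfl fun i _ => Finset.sum_congr rfl fun j _ => ?_
      by_cases h1 : t ∈ AA i (α i) <;> by_cases h2 : t ∈ AA j (α j) <;> simp [h1, h2]
    rw [e]
    exact integrable_finsetSum _ (fun i _ => integrable_finsetSum _ (fun j _ =>
      (integrable_const (1:ℝ)).indicator ((AA_meas i _).inter (AA_meas j _))))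

lemma cnt_low (s : Finset ℕ) (α : ℕ → ℝ) (h0 : ∀ i, 0 ≤ α i) (hs : ∑ i ∈ s, α i = 1) :
    1 / 4 ≤ ∫ t, (3 * cnt s α t - (cnt s α t) ^ 2) / 2 ∂mu := by
  have h1 : ∀ i ∈ s, α i ≤ 1 := fun i hi => hs ▸ Finset.single_le_sum (fun j _ => h0 j) hi
  obtain ⟨hi1, hi2⟩ := cnt_integrable s α
  rw [integral_div, integral_sub (hi1.const_mul 3) hi2, integral_const_mul, cnt_int s α h0 h1, hs]
  have := cnt_sq_int s α h0 h1 hs
  linarith

/-- The pointwise bound used with `cnt_low`. -/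
lemma cnt_point (s : Finset ℕ) (α : ℕ → ℝ) (t M : ℝ) (hM0 : 0 ≤ M)
    (hM : ∀ i ∈ s, t ∈ AA i (α i) → 1 ≤ M) :
    (3 * cnt s α t - (cnt s α t) ^ 2) / 2 ≤ M := by
  classical
  have e : cnt s α t = ((s.filter (fun i => t ∈ AA i (α i))).card : ℝ) := by
    rw [cnt, Finset.card_filter]
    push_cast
    refine Finset.sum_congr rfl fun i _ => ?_
    by_cases h : t ∈ AA i (α i) <;> simp [h]
  rw [e]
  rcases Nat.eq_zero_or_pos (s.filter (fun i => t ∈ AA i (α i))).card with h | h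
  · rw [h]; simpa using hM0
  · obtain ⟨i, hi⟩ := Finset.card_pos.1 h
    rw [Finset.mem_filter] at hi
    have h1 := hM i hi.1 hi.2
    refine le_trans ?_ h1
    set n := (s.filter (fun i => t ∈ AA i (α i))).card
    rcases Nat.lt_or_ge n 2 with h2 | h2
    · have : n = 1 := by omega
      rw [this]; norm_num
    · have : (2:ℝ) ≤ n := by exact_mod_cast h2
      nlinarith

end Pool.Agent.Y225.DS
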