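import Mathlib
import Pool.Agent.Y225.DS.Lower

open MeasureTheory Set Filter
open scoped ENNReal

namespace Pool.Agent.Y225.DS

/-- The heavy tailed functions. -/
noncomputable def f (i : ℕ) (t : ℝ) : ℝ := (U i t) ^ (-(1 / 2) : ℝ)

lemma U_nonneg (i : ℕ) (t : ℝ) : 0 ≤ U i t := Int.fract_nonneg _

lemma f_nonneg (i : ℕ) (t : ℝ) : 0 ≤ f i t := Real.rpow_nonneg (U_nonneg i t) _

lemma f_meas (i : ℕ) : Measurable (f i) := (U_meas i).pow_const _

lemma int_rpow_half : Integrable (fun u : ℝ => u ^ (-(1 / 2) : ℝ)) mu := by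
  have := (intervalIntegral.intervalIntegrable_rpow' (a := 0) (b := 1) (r := (-(1 / 2) : ℝ))
    (by norm_num))
  rw [intervalIntegrable_iff_integrableOn_Ioc_of_le zero_le_one] at this
  exact this

lemma f_int (i : ℕ) : Integrable (f i) mu :=
  ((U_mp i).integrable_comp int_rpow_half.aestronglyMeasurable).2 int_rpow_half

/-- The truncated power. -/
noncomputable def psi (p y : ℝ) : ℝ := if y ≤ 1 then y ^ p else y

lemma psi_meas (p : ℝ) : Measurable (psi p) := by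
  unfold psi
  exact Measurable.ite measurableSet_Iic (measurable_id.pow_const p) measurable_id

lemma psi_base {p b : ℝ} (hp : 2 < p) (hb : 0 < b) (hb1 : b ≤ 1) :
    Integrable (fun u : ℝ => psi p (b * u ^ (-(1 / 2) : ℝ))) mu ∧
    ∫ u, psi p (b * u ^ (-(1 / 2) : ℝ)) ∂mu ≤ (2 + 2 / (p - 2)) * b ^ 2 := by
  have hb2 : 0 < b ^ 2 := by positivity
  have hb21 : b ^ 2 ≤ 1 := by nlinarith
  have hU : Ioc (0:ℝ) 1 = Ioc 0 (b ^ 2) ∪ Ioc (b ^ 2) 1 := (Ioc_union_Ioc_eq_Ioc hb2.le hb21).symm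
  have e1 : ∀ u ∈ Ioc (0:ℝ) (b ^ 2), psi p (b * u ^ (-(1 / 2) : ℝ)) = b * u ^ (-(1 / 2) : ℝ) := by
    intro u hu
    have h1 : 1 ≤ b * u ^ (-(1 / 2) : ℝ) := by
      rw [Real.rpow_neg hu.1.le, ← Real.sqrt_eq_rpow, ← div_eq_mul_inv, one_le_div (Real.sqrt_pos.2 hu.1)]
      exact Real.sqrt_le_iff.2 ⟨hb.le, hu.2⟩
    rcases h1.eq_or_lt with h | h
    · unfold psi
      rw [← h]; simp
    · unfold psi
      rw [if_neg (not_le.2 h)]
  have e2 : ∀ u ∈ Ioc (b ^ 2) (1:ℝ), psi p (b * u ^ (-(1 / 2) : ℝ)) = b ^ p * u ^ (-(p / 2)) := by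
    intro u hu
    have hu0 : 0 < u := hb2.trans hu.1
    have h1 : b * u ^ (-(1 / 2) : ℝ) ≤ 1 := by
      rw [Real.rpow_neg hu0.le, ← Real.sqrt_eq_rpow, ← div_eq_mul_inv, div_le_one (Real.sqrt_pos.2 hu0)]
      exact Real.le_sqrt_of_sq_le hu.1.le
    unfold psi
    rw [if_pos h1, Real.mul_rpow hb.le (Real.rpow_nonneg hu0.le _), ← Real.rpow_mul hu0.le]
    congr 2
    ring
  have i1 : IntegrableOn (fun u : ℝ => b * u ^ (-(1 / 2) : ℝ)) (Ioc 0 (b ^ 2)) := by
    have := (intervalIntegral.intervalIntegrable_rpow' (a := 0) (b := b ^ 2) (r := (-(1 / 2) : ℝ))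
      (by norm_num)).const_mul b
    rwa [intervalIntegrable_iff_integrableOn_Ioc_of_le hb2.le] at this
  have h0 : (0:ℝ) ∉ uIcc (b ^ 2) 1 := by
    rw [uIcc_of_le hb21]
    intro h
    exact absurd h.1 (not_le.2 hb2)
  have i2 : IntegrableOn (fun u : ℝ => b ^ p * u ^ (-(p / 2))) (Ioc (b ^ 2) 1) := by
    have := (intervalIntegral.intervalIntegrable_rpow (a := b ^ 2) (b := 1) (r := (-(p / 2)))
      (μ := volume) (Or.inr h0)).const_mul (b ^ p)
    rwa [intervalIntegrable_iff_integrableOn_Ioc_of_le hb21] at this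
  have j1 : IntegrableOn (fun u : ℝ => psi p (b * u ^ (-(1 / 2) : ℝ))) (Ioc 0 (b ^ 2)) :=
    i1.congr_fun (fun u hu => (e1 u hu).symm) measurableSet_Ioc
  have j2 : IntegrableOn (fun u : ℝ => psi p (b * u ^ (-(1 / 2) : ℝ))) (Ioc (b ^ 2) 1) :=
    i2.congr_fun (fun u hu => (e2 u hu).symm) measurableSet_Ioc
  refine ⟨?_, ?_⟩
  · rw [mu, hU]
    exact j1.union j2
  · rw [mu, hU, setIntegral_union (Ioc_disjoint_Ioc_of_le le_rfl) measurableSet_Ioc j1 j2,
      setIntegral_congr_fun measurableSet_Ioc e1, setIntegral_congr_fun measurableSet_Ioc e2,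
      ← intervalIntegral.integral_of_le hb2.le, ← intervalIntegral.integral_of_le hb21,
      intervalIntegral.integral_const_mul, intervalIntegral.integral_const_mul,
      integral_rpow (Or.inl (by norm_num)), integral_rpow (Or.inr ⟨by linarith, h0⟩)]
    have s1 : (b ^ 2) ^ ((-(1 / 2) : ℝ) + 1) = b := by
      rw [← Real.rpow_natCast b 2, ← Real.rpow_mul hb.le]
      norm_num
    have s2 : (b ^ 2) ^ (-(p / 2) + 1) = b ^ (2 - p) := by
      rw [← Real.rpow_natCast b 2, ← Real.rpow_mul hb.le]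
      congr 1
      push_cast
      ring
    have s3 : b ^ p * b ^ (2 - p) = b ^ 2 := by
      rw [← Real.rpow_add hb, ← Real.rpow_natCast b 2]
      congr 1
      push_cast
      ring
    rw [s1, s2, Real.zero_rpow (by norm_num), Real.one_rpow]
    have s4 : b ^ p * ((1 - b ^ (2 - p)) / (-(p / 2) + 1)) = (b ^ 2 - b ^ p) * (2 / (p - 2)) := by
      rw [← s3]
      have : p - 2 ≠ 0 := by linarith
      have h5 : -(p / 2) + 1 = -((p - 2) / 2) := by ring
      rw [h5]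
      field_simp
      ring
    rw [s4]
    have h6 : 0 ≤ b ^ p := Real.rpow_nonneg hb.le _
    have h7 : 0 ≤ 2 / (p - 2) := div_nonneg (by norm_num) (by linarith)
    have h8 : b * ((b - 0) / ((-(1 / 2) : ℝ) + 1)) = 2 * b ^ 2 := by ring
    rw [h8]
    nlinarith [mul_nonneg h6 h7]

lemma psi_int {p b : ℝ} (hp : 2 < p) (hb : 0 ≤ b) (hb1 : b ≤ 1) (i : ℕ) :
    Integrable (fun t : ℝ => psi p (b * f i t)) mu ∧
    ∫ t, psi p (b * f i t) ∂mu ≤ (2 + 2 / (p - 2)) * b ^ 2 := by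
  rcases hb.eq_or_lt with h | h
  · have e : (fun t : ℝ => psi p (b * f i t)) = fun _ => 0 := by
      ext t
      rw [← h]
      unfold psi
      simp [Real.zero_rpow (show p ≠ 0 by linarith)]
    rw [e]
    refine ⟨integrable_zero _ _ _, ?_⟩
    rw [← h]
    simp
  · obtain ⟨h1, h2⟩ := psi_base hp h hb1
    have hg : Measurable (fun u : ℝ => psi p (b * u ^ (-(1 / 2) : ℝ))) :=
      (psi_meas p).comp (measurable_const.mul (measurable_id.pow_const _))
    refine ⟨((U_mp i).integrable_comp hg.aestronglyMeasurable).2 h1, ?_⟩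
    have : ∫ t, psi p (b * f i t) ∂mu = ∫ u, psi p (b * u ^ (-(1 / 2) : ℝ)) ∂mu := by
      conv_rhs => rw [← (U_mp i).map_eq]
      rw [integral_map (U_meas i).aemeasurable hg.aestronglyMeasurable]
      rfl
    rw [this]
    exact h2

/-- On the event `AA i (b²)` the `i`-th function is at least `1/b`. -/
lemma f_on_AA {i : ℕ} {b t : ℝ} (hb : 0 ≤ b) (ht : t ∈ AA i (b ^ 2)) : 1 ≤ b * f i t := by
  have hu : 0 < U i t := ht.1
  unfold f
  rw [Real.rpow_neg hu.le, ← Real.sqrt_eq_rpow, ← div_eq_mul_inv, one_le_div (Real.sqrt_pos.2 hu)]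
  exact Real.sqrt_le_iff.2 ⟨hb, ht.2⟩

end Pool.Agent.Y225.DS
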