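import Mathlib
import Pool.Agent.Y225.DS.Upper

open MeasureTheory Set Filter
open scoped ENNReal Topology

namespace Pool.Agent.Y225.DS

/-- `F` contains a copy of `E`. -/
def CopyIn (𝕜 : Type*) [RCLike 𝕜] (E F : Type*) [NormedAddCommGroup E] [NormedSpace 𝕜 E]
    [NormedAddCommGroup F] [NormedSpace 𝕜 F] : Prop :=
  ∃ T : E →L[𝕜] F, ∃ c : ℝ, 0 < c ∧ ∀ x, c * ‖x‖ ≤ ‖T x‖

section ext

variable {𝕜 : Type*} [RCLike 𝕜] {X E : Type*} [NormedAddCommGroup X] [NormedSpace 𝕜 X]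
  [NormedAddCommGroup E] [NormedSpace 𝕜 E] [CompleteSpace E]

lemma ext_copy (φ : ℕ → X →L[𝕜] E) {c C : ℝ} (hc : 0 < c) (hC : 0 < C)
    (h1 : ∀ (s : Finset ℕ) (x : ℕ → X), c * √(∑ i ∈ s, ‖x i‖ ^ 2) ≤ ‖∑ i ∈ s, φ i (x i)‖)
    (h2 : ∀ (s : Finset ℕ) (x : ℕ → X), ‖∑ i ∈ s, φ i (x i)‖ ≤ C * √(∑ i ∈ s, ‖x i‖ ^ 2)) :
    CopyIn 𝕜 (lp (fun _ : ℕ => X) 2) E := by
  have h20 : 0 < (2 : ℝ≥0∞).toReal := by norm_num
  have hs2 : ∀ x : lp (fun _ : ℕ => X) 2, HasSum (fun i => ‖x i‖ ^ 2) (‖x‖ ^ 2) := by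
    intro x
    have := lp.hasSum_norm h20 x
    simpa using this
  have hsum : ∀ x : lp (fun _ : ℕ => X) 2, Summable (fun i => φ i (x i)) := by
    intro x
    rw [summable_iff_vanishing_norm]
    intro ε hε
    have := (hs2 x).summable
    rw [summable_iff_vanishing_norm] at this
    obtain ⟨s, hs⟩ := this ((ε / C) ^ 2) (by positivity)
    refine ⟨s, fun t ht => ?_⟩
    have h3 := hs t ht
    have h4 : ∑ i ∈ t, ‖x i‖ ^ 2 < (ε / C) ^ 2 := by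
      rw [Real.norm_of_nonneg (Finset.sum_nonneg fun i _ => by positivity)] at h3
      exact h3
    have h5 : √(∑ i ∈ t, ‖x i‖ ^ 2) < ε / C := by
      rw [Real.sqrt_lt' (by positivity)]
      exact h4
    calc ‖∑ i ∈ t, φ i (x i)‖ ≤ C * √(∑ i ∈ t, ‖x i‖ ^ 2) := h2 t (fun i => x i)
      _ < C * (ε / C) := by gcongr
      _ = ε := by field_simp
  have hlim : ∀ x : lp (fun _ : ℕ => X) 2,
      Tendsto (fun s : Finset ℕ => √(∑ i ∈ s, ‖x i‖ ^ 2)) atTop (𝓝 ‖x‖) := by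
    intro x
    have := (Real.continuous_sqrt.tendsto _).comp (hs2 x)
    rw [Real.sqrt_sq (norm_nonneg _)] at this
    exact this
  have hlim2 : ∀ x : lp (fun _ : ℕ => X) 2,
      Tendsto (fun s : Finset ℕ => ‖∑ i ∈ s, φ i (x i)‖) atTop (𝓝 ‖∑' i, φ i (x i)‖) :=
    fun x => (hsum x).hasSum.norm
  let L : lp (fun _ : ℕ => X) 2 →ₗ[𝕜] E :=
    { toFun := fun x => ∑' i, φ i (x i)
      map_add' := by
        intro x y
        rw [← (hsum x).tsum_add (hsum y)]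
        refine tsum_congr fun i => ?_
        simp
      map_smul' := by
        intro a x
        rw [RingHom.id_apply, ← (hsum x).tsum_const_smul]
        refine tsum_congr fun i => ?_
        simp }
  have hL : ∀ x, ‖L x‖ ≤ C * ‖x‖ := fun x =>
    le_of_tendsto_of_tendsto' (hlim2 x) ((hlim x).const_mul C) (fun s => h2 s _)
  refine ⟨L.mkContinuous C hL, c, hc, fun x => ?_⟩
  exact le_of_tendsto_of_tendsto' ((hlim x).const_mul c) (hlim2 x) (fun s => h1 s _)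

end ext

section main

variable {𝕜 : Type*} [RCLike 𝕜] {X Z : Type*} [NormedAddCommGroup X] [NormedSpace 𝕜 X]
  [NormedAddCommGroup Z] [NormedSpace 𝕜 Z]

lemma fz_int (i : ℕ) (z : Z) : Integrable (fun t => ((f i t : ℝ) : 𝕜) • z) mu :=
  (f_int i).ofReal.smul_const z

/-- The operator `x ↦ f_i ⊗ J x`. -/
noncomputable def phi (J : X →L[𝕜] Z) (i : ℕ) : X →ₗ[𝕜] Lp Z 1 mu where
  toFun x := (memLp_one_iff_integrable.2 (fz_int (𝕜 := 𝕜) i (J x))).toLp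
  map_add' x y := by
    rw [← MemLp.toLp_add]
    apply MemLp.toLp_congr
    filter_upwards with t
    simp
  map_smul' a x := by
    rw [RingHom.id_apply, ← MemLp.toLp_const_smul]
    apply MemLp.toLp_congr
    filter_upwards with t
    simp only [map_smul, Pi.smul_apply]
    rw [smul_comm]

lemma phi_sum (J : ℕ → X →L[𝕜] Z) (s : Finset ℕ) (x : ℕ → X) :
    ((∑ i ∈ s, phi (J i) i (x i) : Lp Z 1 mu) : ℝ → Z) =ᵐ[mu]
      fun t => ∑ i ∈ s, ((f i t : ℝ) : 𝕜) • J i (x i) := by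
  classical
  induction s using Finset.induction_on with
  | empty =>
    simp only [Finset.sum_empty]
    exact Lp.coeFn_zero _ _ _
  | insert a s ha ih =>
    rw [Finset.sum_insert ha]
    have h1 := Lp.coeFn_add (phi (J a) a (x a)) (∑ i ∈ s, phi (J i) i (x i))
    have h2 : ((phi (J a) a (x a) : Lp Z 1 mu) : ℝ → Z) =ᵐ[mu]
      fun t => ((f a t : ℝ) : 𝕜) • J a (x a) :=
      MemLp.coeFn_toLp (memLp_one_iff_integrable.2 (fz_int (𝕜 := 𝕜) a (J a (x a))))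
    filter_upwards [h1, h2, ih] with t e1 e2 e3
    rw [e1, Pi.add_apply, e2, e3, Finset.sum_insert ha]

lemma phi_norm (J : ℕ → X →L[𝕜] Z) (s : Finset ℕ) (x : ℕ → X) :
    ‖(∑ i ∈ s, phi (J i) i (x i) : Lp Z 1 mu)‖ =
      ∫ t, ‖∑ i ∈ s, ((f i t : ℝ) : 𝕜) • J i (x i)‖ ∂mu := by
  rw [L1.norm_eq_integral_norm]
  apply integral_congr_ae
  filter_upwards [phi_sum J s x] with t ht
  rw [ht]

lemma root_le {p z : ℝ} (hp : 1 ≤ p) (hz : 0 ≤ z) : z ^ (1 / p) ≤ 1 + z := by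
  rcases le_total z 1 with h | h
  · have : z ^ (1 / p) ≤ 1 := Real.rpow_le_one hz h (by positivity)
    linarith
  · have h1 : z ^ (1 / p) ≤ z ^ (1:ℝ) :=
      Real.rpow_le_rpow_of_exponent_le h (by rw [div_le_one (by linarith)]; exact hp)
    rw [Real.rpow_one] at h1
    linarith

/-- The hypothesis of the main theorem: uniform copies of `X` in `Z` with an upper `p`-estimate. -/
def Upper (p C : ℝ) (J : ℕ → X →L[𝕜] Z) : Prop :=
  ∀ (s : Finset ℕ) (x : ℕ → X), (∀ i ∈ s, ‖x i‖ ≤ C * ‖∑ i ∈ s, J i (x i)‖) ∧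
    ‖∑ i ∈ s, J i (x i)‖ ≤ C * (∑ i ∈ s, ‖x i‖ ^ p) ^ (1 / p)

variable {p C : ℝ} {J : ℕ → X →L[𝕜] Z}

lemma upper_psi (hp : 2 < p) (hC : 0 < C) (hJ : Upper p C J) (s : Finset ℕ) (z : ℕ → X) :
    ‖∑ i ∈ s, J i (z i)‖ ≤ C * (1 + ∑ i ∈ s, psi p ‖z i‖) := by
  classical
  rw [← Finset.sum_filter_add_sum_filter_not s (fun i => ‖z i‖ ≤ 1) (fun i => J i (z i)),
    ← Finset.sum_filter_add_sum_filter_not s (fun i => ‖z i‖ ≤ 1) (fun i => psi p ‖z i‖)]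
  have e1 : ∑ i ∈ s.filter (fun i => ‖z i‖ ≤ 1), psi p ‖z i‖ =
      ∑ i ∈ s.filter (fun i => ‖z i‖ ≤ 1), ‖z i‖ ^ p := by
    refine Finset.sum_congr rfl fun i hi => ?_
    rw [Finset.mem_filter] at hi
    simp [psi, hi.2]
  have e2 : ∑ i ∈ s.filter (fun i => ¬ ‖z i‖ ≤ 1), psi p ‖z i‖ =
      ∑ i ∈ s.filter (fun i => ¬ ‖z i‖ ≤ 1), ‖z i‖ := by
    refine Finset.sum_congr rfl fun i hi => ?_
    rw [Finset.mem_filter] at hi
    simp only [psi, if_neg hi.2]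
  rw [e1, e2]
  have h1 : ‖∑ i ∈ s.filter (fun i => ‖z i‖ ≤ 1), J i (z i)‖ ≤
      C * (1 + ∑ i ∈ s.filter (fun i => ‖z i‖ ≤ 1), ‖z i‖ ^ p) := by
    refine ((hJ _ z).2).trans ?_
    gcongr
    exact root_le (by linarith) (Finset.sum_nonneg fun i _ => Real.rpow_nonneg (norm_nonneg _) _)
  have h2 : ‖∑ i ∈ s.filter (fun i => ¬ ‖z i‖ ≤ 1), J i (z i)‖ ≤
      C * ∑ i ∈ s.filter (fun i => ¬ ‖z i‖ ≤ 1), ‖z i‖ := by
    refine (norm_sum_le _ _).trans ?_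
    rw [Finset.mul_sum]
    refine Finset.sum_le_sum fun i _ => ?_
    have := (hJ {i} z).2
    simp only [Finset.sum_singleton] at this
    rwa [← Real.rpow_mul (norm_nonneg _), mul_one_div_cancel (by linarith), Real.rpow_one] at this
  refine (norm_add_le _ _).trans ?_
  linarith

lemma norm_ofReal_smul {a : ℝ} (ha : 0 ≤ a) (x : X) : ‖((a : ℝ) : 𝕜) • x‖ = ‖x‖ * a := by
  rw [norm_smul, RCLike.norm_ofReal, abs_of_nonneg ha, mul_comm]

lemma unit_est (hp : 2 < p) (hC : 0 < C) (hJ : Upper p C J) (s : Finset ℕ) (x : ℕ → X)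
    (hx : ∑ i ∈ s, ‖x i‖ ^ 2 = 1) :
    1 / (4 * C) ≤ ∫ t, ‖∑ i ∈ s, ((f i t : ℝ) : 𝕜) • J i (x i)‖ ∂mu ∧
    ∫ t, ‖∑ i ∈ s, ((f i t : ℝ) : 𝕜) • J i (x i)‖ ∂mu ≤ C * (3 + 2 / (p - 2)) := by
  have hint : Integrable (fun t => ‖∑ i ∈ s, ((f i t : ℝ) : 𝕜) • J i (x i)‖) mu :=
    (integrable_finsetSum _ (fun i _ => fz_int i _)).norm
  have hcomm : ∀ t, ∑ i ∈ s, ((f i t : ℝ) : 𝕜) • J i (x i) =
      ∑ i ∈ s, J i (((f i t : ℝ) : 𝕜) • x i) := by
    intro t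
    refine Finset.sum_congr rfl fun i _ => ?_
    rw [map_smul]
  have hb1 : ∀ i ∈ s, ‖x i‖ ≤ 1 := by
    intro i hi
    have h := Finset.single_le_sum (f := fun i => ‖x i‖ ^ 2) (fun j _ => by positivity) hi
    rw [hx] at h
    nlinarith [norm_nonneg (x i)]
  constructor
  · have h1 := cnt_low s (fun i => ‖x i‖ ^ 2) (fun i => by positivity) hx
    have hle : ∫ t, (3 * cnt s (fun i => ‖x i‖ ^ 2) t - (cnt s (fun i => ‖x i‖ ^ 2) t) ^ 2) / 2 ∂mu ≤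
        ∫ t, C * ‖∑ i ∈ s, ((f i t : ℝ) : 𝕜) • J i (x i)‖ ∂mu := by
      obtain ⟨hi1, hi2⟩ := cnt_integrable s (fun i => ‖x i‖ ^ 2)
      refine integral_mono (((hi1.const_mul 3).sub hi2).div_const 2) (hint.const_mul C)
        (fun t => ?_)
      refine cnt_point s _ t _ (by positivity) (fun i hi ht => ?_)
      have h2 := (hJ s (fun i => ((f i t : ℝ) : 𝕜) • x i)).1 i hi
      rw [norm_ofReal_smul (f_nonneg i t)] at h2
      rw [hcomm t]
      exact (f_on_AA (norm_nonneg _) ht).trans h2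
    rw [integral_const_mul] at hle
    rw [div_le_iff₀ (by positivity)]
    nlinarith
  · have hi : ∀ i ∈ s, Integrable (fun t : ℝ => psi p (‖x i‖ * f i t)) mu := fun i hi =>
      (psi_int hp (norm_nonneg _) (hb1 i hi) i).1
    have hle : ∫ t, ‖∑ i ∈ s, ((f i t : ℝ) : 𝕜) • J i (x i)‖ ∂mu ≤
        ∫ t, C * (1 + ∑ i ∈ s, psi p (‖x i‖ * f i t)) ∂mu := by
      refine integral_mono hint (((integrable_const 1).add
        (integrable_finsetSum _ hi)).const_mul C) (fun t => ?_)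
      simp only
      rw [hcomm t]
      refine (upper_psi hp hC hJ s _).trans (le_of_eq ?_)
      simp only [norm_ofReal_smul (f_nonneg _ _)]
    refine hle.trans ?_
    rw [integral_const_mul, integral_add (integrable_const 1) (integrable_finsetSum _ hi),
      integral_finsetSum _ hi]
    have h3 : ∑ i ∈ s, ∫ t, psi p (‖x i‖ * f i t) ∂mu ≤ 2 + 2 / (p - 2) := by
      calc ∑ i ∈ s, ∫ t, psi p (‖x i‖ * f i t) ∂mu
          ≤ ∑ i ∈ s, (2 + 2 / (p - 2)) * ‖x i‖ ^ 2 :=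
            Finset.sum_le_sum fun i hi => (psi_int hp (norm_nonneg _) (hb1 i hi) i).2
        _ = 2 + 2 / (p - 2) := by rw [← Finset.mul_sum, hx, mul_one]
    have h4 : ∫ _t, (1:ℝ) ∂mu = 1 := by simp
    rw [h4]
    exact mul_le_mul_of_nonneg_left (by linarith) hC.le

/-- The two-sided estimate for arbitrary finite sums. -/
lemma two_sided (hp : 2 < p) (hC : 0 < C) (hJ : Upper p C J) (s : Finset ℕ) (x : ℕ → X) :
    1 / (4 * C) * √(∑ i ∈ s, ‖x i‖ ^ 2) ≤ ‖(∑ i ∈ s, phi (J i) i (x i) : Lp Z 1 mu)‖ ∧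
    ‖(∑ i ∈ s, phi (J i) i (x i) : Lp Z 1 mu)‖ ≤
      C * (3 + 2 / (p - 2)) * √(∑ i ∈ s, ‖x i‖ ^ 2) := by
  set B : ℝ := √(∑ i ∈ s, ‖x i‖ ^ 2) with hB
  have hnn : 0 ≤ ∑ i ∈ s, ‖x i‖ ^ 2 := Finset.sum_nonneg fun i _ => by positivity
  rcases (Real.sqrt_nonneg (∑ i ∈ s, ‖x i‖ ^ 2)).eq_or_lt with h | h
  · have h0 : ∑ i ∈ s, ‖x i‖ ^ 2 = 0 := (Real.sqrt_eq_zero hnn).1 h.symm
    have h1 : ∀ i ∈ s, x i = 0 := by
      intro i hi
      have := (Finset.sum_eq_zero_iff_of_nonneg (fun i _ => by positivity)).1 h0 i hi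
      simpa using this
    have h2 : (∑ i ∈ s, phi (J i) i (x i) : Lp Z 1 mu) = 0 :=
      Finset.sum_eq_zero fun i hi => by rw [h1 i hi, map_zero]
    rw [h2, hB, ← h]
    simp
  · rw [← hB] at h
    have hx' : ∑ i ∈ s, ‖((B⁻¹ : ℝ) : 𝕜) • x i‖ ^ 2 = 1 := by
      simp only [norm_ofReal_smul (inv_nonneg.2 h.le), mul_pow]
      rw [← Finset.sum_mul, ← Real.sq_sqrt hnn, ← hB]
      field_simp
    have key := unit_est hp hC hJ s (fun i => ((B⁻¹ : ℝ) : 𝕜) • x i) hx'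
    rw [← phi_norm J s (fun i => ((B⁻¹ : ℝ) : 𝕜) • x i)] at key
    have e : (∑ i ∈ s, phi (J i) i (((B⁻¹ : ℝ) : 𝕜) • x i) : Lp Z 1 mu) =
        ((B⁻¹ : ℝ) : 𝕜) • ∑ i ∈ s, phi (J i) i (x i) := by
      rw [Finset.smul_sum]
      refine Finset.sum_congr rfl fun i _ => ?_
      rw [map_smul]
    rw [e, norm_ofReal_smul (inv_nonneg.2 h.le), ← div_eq_mul_inv, le_div_iff₀ h,
      div_le_iff₀ h] at key
    exact key

/-- Main theorem: if `Z` contains uniform copies of `X` with an upper `p`-estimate for some `p > 2`,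
then `L¹(Z)` contains a copy of `ℓ²(X)`. -/
theorem of_upper [CompleteSpace Z] (hp : 2 < p) (hC : 0 < C) (hJ : Upper p C J) :
    CopyIn 𝕜 (lp (fun _ : ℕ => X) 2) (Lp Z 1 mu) := by
  have hCC : 0 < C * (3 + 2 / (p - 2)) := by
    have : 0 < 2 / (p - 2) := div_pos (by norm_num) (by linarith)
    positivity
  have hb : ∀ i x, ‖phi (J i) i x‖ ≤ C * (3 + 2 / (p - 2)) * ‖x‖ := by
    intro i x
    have := (two_sided hp hC hJ {i} (fun _ => x)).2
    simpa [Real.sqrt_sq (norm_nonneg x)] using this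
  refine ext_copy (fun i => (phi (J i) i).mkContinuous _ (hb i))
    (c := 1 / (4 * C)) (C := C * (3 + 2 / (p - 2))) (by positivity) hCC
    (fun s x => (two_sided hp hC hJ s x).1) (fun s x => (two_sided hp hC hJ s x).2)

end main

end Pool.Agent.Y225.DS
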