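import Mathlib
import Pool.Agent.Y225.DS.Main

open MeasureTheory Set Filter
open scoped ENNReal Topology ZeroAtInfty

namespace Pool.Agent.Y225.DS

section general

variable {𝕜 : Type*} [RCLike 𝕜] {X Z W : Type*} [NormedAddCommGroup X] [NormedSpace 𝕜 X]
  [NormedAddCommGroup Z] [NormedSpace 𝕜 Z] [NormedAddCommGroup W] [NormedSpace 𝕜 W]

lemma upper_comp {p C : ℝ} (hC : 0 < C) {J : ℕ → X →L[𝕜] Z} (hJ : Upper p C J) (T : Z →L[𝕜] W)
    {c : ℝ} (hc : 0 < c) (hT : ∀ z, c * ‖z‖ ≤ ‖T z‖) :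
    Upper p (C * (c⁻¹ + ‖T‖)) (fun i => T.comp (J i)) := by
  intro s x
  obtain ⟨h1, h2⟩ := hJ s x
  have e : ∑ i ∈ s, (T.comp (J i)) (x i) = T (∑ i ∈ s, J i (x i)) := by
    rw [map_sum]; rfl
  have hr : 0 ≤ (∑ i ∈ s, ‖x i‖ ^ p) ^ (1 / p) :=
    Real.rpow_nonneg (Finset.sum_nonneg fun i _ => Real.rpow_nonneg (norm_nonneg _) _) _
  rw [e]
  refine ⟨fun i hi => ?_, ?_⟩
  · have h3 := h1 i hi
    have h4 : ‖∑ i ∈ s, J i (x i)‖ ≤ c⁻¹ * ‖T (∑ i ∈ s, J i (x i))‖ := by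
      rw [inv_mul_eq_div, le_div_iff₀ hc, mul_comm]
      exact hT _
    calc ‖x i‖ ≤ C * ‖∑ i ∈ s, J i (x i)‖ := h3
      _ ≤ C * (c⁻¹ * ‖T (∑ i ∈ s, J i (x i))‖) := by gcongr
      _ ≤ C * (c⁻¹ + ‖T‖) * ‖T (∑ i ∈ s, J i (x i))‖ := by
        rw [mul_assoc]
        gcongr
        linarith [norm_nonneg T]
  · calc ‖T (∑ i ∈ s, J i (x i))‖ ≤ ‖T‖ * ‖∑ i ∈ s, J i (x i)‖ := T.le_opNorm _
      _ ≤ ‖T‖ * (C * (∑ i ∈ s, ‖x i‖ ^ p) ^ (1 / p)) := by gcongr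
      _ = C * ‖T‖ * (∑ i ∈ s, ‖x i‖ ^ p) ^ (1 / p) := by ring
      _ ≤ C * (c⁻¹ + ‖T‖) * (∑ i ∈ s, ‖x i‖ ^ p) ^ (1 / p) := by
        gcongr
        have : 0 < c⁻¹ := inv_pos.2 hc
        linarith

/-- `X` embeds in `L¹(X)` as the constant functions. -/
lemma const_copy : CopyIn 𝕜 X (Lp X 1 mu) := by
  refine ⟨Lp.constL 1 mu 𝕜, 1, one_pos, fun x => ?_⟩
  have : ‖Lp.const 1 mu x‖ = ‖x‖ * mu.real Set.univ ^ (1 / (1:ℝ≥0∞).toReal) :=
    Lp.norm_const 1 mu x one_ne_zero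
  simp only [probReal_univ, Real.one_rpow, mul_one] at this
  rw [one_mul]
  exact this.ge

lemma copy_trans (h1 : CopyIn 𝕜 X Z) (h2 : CopyIn 𝕜 Z W) : CopyIn 𝕜 X W := by
  obtain ⟨T, c, hc, hT⟩ := h1
  obtain ⟨S, d, hd, hS⟩ := h2
  refine ⟨S.comp T, d * c, by positivity, fun x => ?_⟩
  calc d * c * ‖x‖ = d * (c * ‖x‖) := by ring
    _ ≤ d * ‖T x‖ := by gcongr; exact hT x
    _ ≤ ‖S (T x)‖ := hS _

lemma single_upper (p : ℝ≥0∞) [Fact (1 ≤ p)] (hp : 0 < p.toReal) :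
    Upper p.toReal 1 (fun i => lp.singleContinuousLinearMap 𝕜 (fun _ : ℕ => X) p i) := by
  intro s x
  have h := lp.norm_sum_single hp x s
  simp only [lp.singleContinuousLinearMap_apply, one_mul]
  have hnn : ∀ i ∈ s, 0 ≤ ‖x i‖ ^ p.toReal := fun i _ => Real.rpow_nonneg (norm_nonneg _) _
  have e : ‖∑ i ∈ s, lp.single p i (x i)‖ = (∑ i ∈ s, ‖x i‖ ^ p.toReal) ^ (1 / p.toReal) := by
    rw [← h, ← Real.rpow_mul (norm_nonneg _), mul_one_div_cancel hp.ne', Real.rpow_one]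
  refine ⟨fun i hi => ?_, e.le⟩
  rw [e]
  have h1 : ‖x i‖ = (‖x i‖ ^ p.toReal) ^ (1 / p.toReal) := by
    rw [← Real.rpow_mul (norm_nonneg _), mul_one_div_cancel hp.ne', Real.rpow_one]
  rw [h1]
  exact Real.rpow_le_rpow (hnn i hi) (Finset.single_le_sum hnn hi) (by positivity)

/-- If `X` contains a copy of `ℓ^p(X)` for some `2 ≤ p < ∞`, then `L¹(X)` contains `ℓ²(X)`. -/
theorem of_lp [CompleteSpace X] (p : ℝ≥0∞) [Fact (1 ≤ p)] (h2 : 2 ≤ p) (hp : p ≠ ∞)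
    (h : CopyIn 𝕜 (lp (fun _ : ℕ => X) p) X) :
    CopyIn 𝕜 (lp (fun _ : ℕ => X) 2) (Lp X 1 mu) := by
  rcases h2.eq_or_lt with rfl | h2
  · exact copy_trans h const_copy
  · obtain ⟨T, c, hc, hT⟩ := h
    have hp2 : 2 < p.toReal := by
      have := (ENNReal.toReal_lt_toReal (by norm_num) hp).2 h2
      simpa using this
    have := upper_comp one_pos (single_upper (𝕜 := 𝕜) (X := X) p (by linarith)) T hc hT
    exact of_upper hp2 (by positivity) this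

lemma c0_norm_le {Y : Type*} [NormedAddCommGroup Y] (f : C₀(ℕ, Y)) {M : ℝ} (hM : 0 ≤ M)
    (h : ∀ n, ‖f n‖ ≤ M) : ‖f‖ ≤ M := by
  rw [← ZeroAtInftyContinuousMap.norm_toBCF_eq_norm]
  exact (BoundedContinuousFunction.norm_le hM).2 h

lemma c0_coe_le {Y : Type*} [NormedAddCommGroup Y] (f : C₀(ℕ, Y)) (n : ℕ) : ‖f n‖ ≤ ‖f‖ := by
  rw [← ZeroAtInftyContinuousMap.norm_toBCF_eq_norm]
  exact f.toBCF.norm_coe_le_norm n

/-- A bounded linear map into `c₀(Y)` from its coordinates. -/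
noncomputable def mkC0 (g : X →ₗ[𝕜] (ℕ → Z)) (hz : ∀ x, Tendsto (g x) cofinite (𝓝 0))
    (hb : ∀ x n, ‖g x n‖ ≤ ‖x‖) : X →L[𝕜] C₀(ℕ, Z) :=
  LinearMap.mkContinuous
    { toFun := fun x => ⟨⟨g x, continuous_of_discreteTopology⟩, by
        rw [cocompact_eq_cofinite]; exact hz x⟩
      map_add' := by
        intro x y
        ext n
        simp
      map_smul' := by
        intro a x
        ext n
        simp } 1 (fun x => by
          rw [one_mul]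
          exact c0_norm_le _ (norm_nonneg x) (hb x))

lemma mkC0_apply (g : X →ₗ[𝕜] (ℕ → Z)) (hz : ∀ x, Tendsto (g x) cofinite (𝓝 0))
    (hb : ∀ x n, ‖g x n‖ ≤ ‖x‖) (x : X) (n : ℕ) : mkC0 g hz hb x n = g x n := rfl

lemma c0_upper (J : ℕ → X →L[𝕜] C₀(ℕ, Z)) (a : ℕ → ℕ) (h1 : ∀ i x n, a n ≠ i → J i x n = 0)
    (h2 : ∀ i x, ‖x‖ ≤ ‖J i x‖) (h3 : ∀ i x n, ‖J i x n‖ ≤ ‖x‖) : Upper 3 1 J := by
  intro s x
  have e : ∀ n, (∑ i ∈ s, J i (x i)) n = if a n ∈ s then J (a n) (x (a n)) n else 0 := by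
    intro n
    have e1 : (∑ i ∈ s, J i (x i)) n = ∑ i ∈ s, J i (x i) n := by
      classical
      induction s using Finset.induction_on with
      | empty => simp
      | insert b s hb ih => rw [Finset.sum_insert hb, Finset.sum_insert hb,
          ZeroAtInftyContinuousMap.add_apply, ih]
    rw [e1]
    split_ifs with h
    · exact Finset.sum_eq_single (a n) (fun i _ hi => h1 i _ n (Ne.symm hi)) (fun h' => absurd h h')
    · exact Finset.sum_eq_zero fun i hi => h1 i _ n (fun h' => h (h' ▸ hi))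
  have hnn : ∀ i ∈ s, 0 ≤ ‖x i‖ ^ (3:ℝ) := fun i _ => Real.rpow_nonneg (norm_nonneg _) _
  simp only [one_mul]
  refine ⟨fun i hi => ?_, ?_⟩
  · refine (h2 i (x i)).trans (c0_norm_le _ (norm_nonneg _) fun n => ?_)
    by_cases h : a n = i
    · have := c0_coe_le (∑ i ∈ s, J i (x i)) n
      rw [e n, if_pos (h ▸ hi)] at this
      rwa [h] at this
    · rw [h1 i _ n h, norm_zero]
      exact norm_nonneg _
  · refine c0_norm_le _ (Real.rpow_nonneg (Finset.sum_nonneg hnn) _) fun n => ?_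
    rw [e n]
    split_ifs with h
    · refine (h3 _ _ n).trans ?_
      have h1 : ‖x (a n)‖ = (‖x (a n)‖ ^ (3:ℝ)) ^ (1 / (3:ℝ)) := by
        rw [← Real.rpow_mul (norm_nonneg _)]
        norm_num
      rw [h1]
      exact Real.rpow_le_rpow (hnn _ h) (Finset.single_le_sum hnn h) (by positivity)
    · rw [norm_zero]
      exact Real.rpow_nonneg (Finset.sum_nonneg hnn) _

/-- If `X` contains a copy of `c₀(X)`, then `L¹(X)` contains a copy of `ℓ²(X)`. -/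
theorem of_c0 [CompleteSpace X] (h : CopyIn 𝕜 C₀(ℕ, X) X) :
    CopyIn 𝕜 (lp (fun _ : ℕ => X) 2) (Lp X 1 mu) := by
  classical
  obtain ⟨T, c, hc, hT⟩ := h
  let δ : ℕ → X →L[𝕜] C₀(ℕ, X) := fun i => mkC0 (LinearMap.single 𝕜 (fun _ : ℕ => X) i)
    (fun x => by
      refine tendsto_nhds_of_eventually_eq ?_
      have : ∀ᶠ n in cofinite, n ≠ i := by simp
      filter_upwards [this] with n hn
      simp [hn])
    (fun x n => by
      by_cases h : n = i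
      · subst h; simp
      · simp [h])
  have hδ : ∀ i x n, δ i x n = if n = i then x else 0 := by
    intro i x n
    change (LinearMap.single 𝕜 (fun _ : ℕ => X) i) x n = _
    simp [Pi.single_apply]
  have hu : Upper 3 1 δ := by
    refine c0_upper δ id (fun i x n hn => ?_) (fun i x => ?_) (fun i x n => ?_)
    · rw [hδ]
      exact if_neg hn
    · have := c0_coe_le (δ i x) i
      rwa [hδ, if_pos rfl] at this
    · rw [hδ]
      split_ifs
      · exact le_rfl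
      · simp
  exact of_upper (by norm_num) (by positivity) (upper_comp one_pos hu T hc hT)

end general

end Pool.Agent.Y225.DS
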