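import Mathlib
import Pool.Agent.Y225.DS.Cor

open MeasureTheory Set Filter
open scoped ENNReal Topology ZeroAtInfty

namespace Pool.Agent.Y225.DS

section concrete

variable {𝕜 : Type*} [RCLike 𝕜] {Y : Type*} [NormedAddCommGroup Y] [NormedSpace 𝕜 Y]

/-- Placing a sequence in the `i`-th row of the square. -/
def row (i : ℕ) (y : ℕ → Y) (n : ℕ) : Y := if (Nat.unpair n).1 = i then y (Nat.unpair n).2 else 0

lemma row_add (i : ℕ) (y z : ℕ → Y) : row i (y + z) = row i y + row i z := by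
  ext n
  simp only [row, Pi.add_apply]
  split_ifs <;> simp

lemma row_smul (i : ℕ) (a : 𝕜) (y : ℕ → Y) : row i (a • y) = a • row i y := by
  ext n
  simp only [row, Pi.smul_apply]
  split_ifs <;> simp

lemma row_hasSum {q : ℝ} (hq : q ≠ 0) (i : ℕ) (y : ℕ → Y) {S : ℝ}
    (h : HasSum (fun n => ‖y n‖ ^ q) S) : HasSum (fun n => ‖row i y n‖ ^ q) S := by
  have hinj : Function.Injective (fun b : ℕ => Nat.pair i b) := fun b b' h => by
    have := Nat.pair_eq_pair.1 h
    exact this.2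
  refine (hinj.hasSum_iff ?_).1 ?_
  · intro n hn
    have : (Nat.unpair n).1 ≠ i := by
      intro h'
      apply hn
      refine ⟨(Nat.unpair n).2, ?_⟩
      simp only
      rw [← h', Nat.pair_unpair]
    simp [row, this, Real.zero_rpow hq]
  · have e : ((fun n => ‖row i y n‖ ^ q) ∘ fun b => Nat.pair i b) = fun n => ‖y n‖ ^ q := by
      ext b
      simp [row]
    rw [e]
    exact h

variable (p : ℝ≥0∞) [Fact (1 ≤ p)]

/-- The `i`-th isometric copy of `ℓ^p(Y)` in itself. -/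
noncomputable def rowL (hp : 0 < p.toReal) (i : ℕ) :
    lp (fun _ : ℕ => Y) p →ₗ[𝕜] lp (fun _ : ℕ => Y) p where
  toFun y := ⟨row i y, memℓp_gen (row_hasSum hp.ne' i y (lp.hasSum_norm hp y)).summable⟩
  map_add' y z := by
    ext n
    change row i ((y + z : lp (fun _ : ℕ => Y) p) : ℕ → Y) n = row i y n + row i z n
    rw [lp.coeFn_add, row_add]
    rfl
  map_smul' a y := by
    ext n
    change row i ((a • y : lp (fun _ : ℕ => Y) p) : ℕ → Y) n = a • row i y n
    rw [lp.coeFn_smul, row_smul]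
    rfl

lemma rowL_apply (hp : 0 < p.toReal) (i : ℕ) (y : lp (fun _ : ℕ => Y) p) (n : ℕ) :
    (rowL (𝕜 := 𝕜) p hp i y : ℕ → Y) n = row i y n := rfl

lemma rowL_sum (hp : 0 < p.toReal) (s : Finset ℕ) (x : ℕ → lp (fun _ : ℕ => Y) p) :
    ‖∑ i ∈ s, rowL (𝕜 := 𝕜) p hp i (x i)‖ ^ p.toReal = ∑ i ∈ s, ‖x i‖ ^ p.toReal := by
  have h1 := lp.hasSum_norm hp (∑ i ∈ s, rowL (𝕜 := 𝕜) p hp i (x i))
  have h2 : HasSum (fun n => ∑ i ∈ s, ‖row i (x i) n‖ ^ p.toReal) (∑ i ∈ s, ‖x i‖ ^ p.toReal) :=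
    hasSum_sum fun i _ => row_hasSum hp.ne' i (x i) (lp.hasSum_norm hp (x i))
  refine h1.unique ?_
  convert h2 using 2 with n
  have e1 : ((∑ i ∈ s, rowL (𝕜 := 𝕜) p hp i (x i) : lp (fun _ : ℕ => Y) p) : ℕ → Y) n =
      ∑ i ∈ s, row i (x i) n := by
    rw [lp.coeFn_sum, Finset.sum_apply]
    rfl
  rw [e1]
  by_cases h : (Nat.unpair n).1 ∈ s
  · have z : ∀ i ∈ s, i ≠ (Nat.unpair n).1 → row i (x i) n = 0 := by
      intro i _ hi
      simp [row, Ne.symm hi]
    rw [Finset.sum_eq_single _ z (fun h' => absurd h h')]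
    rw [Finset.sum_eq_single (Nat.unpair n).1 (fun i hi hi' => by
      rw [z i hi hi', norm_zero, Real.zero_rpow hp.ne']) (fun h' => absurd h h')]
  · have z : ∀ i ∈ s, row i (x i) n = 0 := by
      intro i hi
      have : (Nat.unpair n).1 ≠ i := fun h' => h (h' ▸ hi)
      simp [row, this]
    rw [Finset.sum_eq_zero z, Finset.sum_eq_zero (fun i hi => by
      rw [z i hi, norm_zero, Real.zero_rpow hp.ne']), norm_zero, Real.zero_rpow hp.ne']

lemma rowL_norm (hp : 0 < p.toReal) (i : ℕ) (y : lp (fun _ : ℕ => Y) p) :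
    ‖rowL (𝕜 := 𝕜) p hp i y‖ ≤ 1 * ‖y‖ := by
  have := rowL_sum (𝕜 := 𝕜) p hp {i} (fun _ => y)
  simp only [Finset.sum_singleton] at this
  rw [one_mul]
  exact ((Real.rpow_left_inj (norm_nonneg _) (norm_nonneg _) hp.ne').1 this).le

/-- `L¹(ℓ^p(Y))` contains a copy of `ℓ²(ℓ^p(Y))` for `2 ≤ p < ∞`. -/
theorem lp_has [CompleteSpace Y] (h2 : 2 ≤ p) (hp : p ≠ ∞) :
    CopyIn 𝕜 (lp (fun _ : ℕ => lp (fun _ : ℕ => Y) p) 2) (Lp (lp (fun _ : ℕ => Y) p) 1 mu) := by
  have hp0 : 0 < p.toReal := by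
    apply ENNReal.toReal_pos _ hp
    intro h
    rw [h] at h2
    simp at h2
  let J : ℕ → lp (fun _ : ℕ => Y) p →L[𝕜] lp (fun _ : ℕ => Y) p := fun i =>
    (rowL (𝕜 := 𝕜) p hp0 i).mkContinuous 1 (rowL_norm p hp0 i)
  have hJ : ∀ (s : Finset ℕ) (x : ℕ → lp (fun _ : ℕ => Y) p),
      ‖∑ i ∈ s, J i (x i)‖ = (∑ i ∈ s, ‖x i‖ ^ p.toReal) ^ (1 / p.toReal) := by
    intro s x
    have h := rowL_sum (𝕜 := 𝕜) p hp0 s x
    have e : ‖∑ i ∈ s, J i (x i)‖ = ‖∑ i ∈ s, rowL (𝕜 := 𝕜) p hp0 i (x i)‖ := rfl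
    rw [e, ← h, ← Real.rpow_mul (norm_nonneg _), mul_one_div_cancel hp0.ne', Real.rpow_one]
  rcases h2.eq_or_lt with h2 | h2
  · subst h2
    refine copy_trans (ext_copy J (c := 1) (C := 1) one_pos one_pos (fun s x => ?_)
      (fun s x => ?_)) const_copy
    · rw [hJ s x, one_mul, Real.sqrt_eq_rpow]
      norm_num
    · rw [hJ s x, one_mul, Real.sqrt_eq_rpow]
      norm_num
  · have hp2 : 2 < p.toReal := by
      have := (ENNReal.toReal_lt_toReal (by norm_num) hp).2 h2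
      simpa using this
    refine of_upper (J := J) (C := 1) hp2 one_pos (fun s x => ?_)
    simp only [hJ s x, one_mul]
    have hnn : ∀ i ∈ s, 0 ≤ ‖x i‖ ^ p.toReal := fun i _ => Real.rpow_nonneg (norm_nonneg _) _
    refine ⟨fun i hi => ?_, le_rfl⟩
    have h1 : ‖x i‖ = (‖x i‖ ^ p.toReal) ^ (1 / p.toReal) := by
      rw [← Real.rpow_mul (norm_nonneg _), mul_one_div_cancel hp0.ne', Real.rpow_one]
    rw [h1]
    exact Real.rpow_le_rpow (hnn i hi) (Finset.single_le_sum hnn hi) (by positivity)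

/-- `L¹(c₀(Y))` contains a copy of `ℓ²(c₀(Y))`. -/
theorem c0_has [CompleteSpace Y] :
    CopyIn 𝕜 (lp (fun _ : ℕ => C₀(ℕ, Y)) 2) (Lp C₀(ℕ, Y) 1 mu) := by
  let g : ℕ → C₀(ℕ, Y) →ₗ[𝕜] (ℕ → Y) := fun i =>
    { toFun := fun y => row i y
      map_add' := fun y z => by
        rw [← row_add]; rfl
      map_smul' := fun a y => by
        rw [RingHom.id_apply, ← row_smul]; rfl }
  have hz : ∀ i (y : C₀(ℕ, Y)), Tendsto (g i y) cofinite (𝓝 0) := by
    intro i y
    have h0 : Tendsto (y : ℕ → Y) cofinite (𝓝 0) := by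
      rw [← cocompact_eq_cofinite]
      exact y.zero_at_infty'
    rw [Metric.tendsto_nhds] at h0 ⊢
    intro ε hε
    have h1 := h0 ε hε
    rw [eventually_cofinite] at h1 ⊢
    refine (h1.image (fun b => Nat.pair i b)).subset ?_
    intro n hn
    simp only [mem_ofPred_eq] at hn
    change ¬ dist (row i y n) 0 < ε at hn
    by_cases h : (Nat.unpair n).1 = i
    · refine ⟨(Nat.unpair n).2, ?_, ?_⟩
      · simpa [row, h] using hn
      · simp only
        rw [← h, Nat.pair_unpair]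
    · exfalso
      apply hn
      simp [row, h, hε]
  have hb : ∀ i (y : C₀(ℕ, Y)) n, ‖g i y n‖ ≤ ‖y‖ := by
    intro i y n
    change ‖row i y n‖ ≤ ‖y‖
    unfold row
    split_ifs
    · exact c0_coe_le y _
    · rw [norm_zero]; exact norm_nonneg _
  have hu : Upper 3 1 (fun i => mkC0 (g i) (hz i) (hb i)) := by
    refine c0_upper _ (fun n => (Nat.unpair n).1) (fun i x n hn => ?_) (fun i x => ?_)
      (fun i x n => hb i x n)
    · change row i x n = 0
      simp [row, hn]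
    · refine c0_norm_le _ (norm_nonneg _) fun b => ?_
      have := c0_coe_le (mkC0 (g i) (hz i) (hb i) x) (Nat.pair i b)
      have e : mkC0 (g i) (hz i) (hb i) x (Nat.pair i b) = x b := by
        change row i x (Nat.pair i b) = x b
        simp [row]
      rwa [e] at this
  exact of_upper (by norm_num) one_pos hu

end concrete

end Pool.Agent.Y225.DS
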