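import Mathlib
import Pool.Agent.Y225.DS.Main

open MeasureTheory Set Filter
open scoped ENNReal Topology

namespace Pool.Agent.Y225.DS

section sum

variable {𝕜 : Type*} [RCLike 𝕜] {X Y : Type*} [NormedAddCommGroup X] [NormedSpace 𝕜 X]
  [NormedAddCommGroup Y] [NormedSpace 𝕜 Y]

lemma two_pos' : 0 < (2 : ℝ≥0∞).toReal := by norm_num

/-- Coordinatewise application of an operator of norm at most one. -/
noncomputable def mapL (A : X →L[𝕜] Y) (hA : ∀ x, ‖A x‖ ≤ ‖x‖) :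
    lp (fun _ : ℕ => X) 2 →L[𝕜] lp (fun _ : ℕ => Y) 2 :=
  LinearMap.mkContinuous
    { toFun := fun z => ⟨fun n => A (z n), memℓp_gen (by
        refine Summable.of_nonneg_of_le (fun n => Real.rpow_nonneg (norm_nonneg _) _) (fun n => ?_)
          ((lp.memℓp z).summable two_pos')
        exact Real.rpow_le_rpow (norm_nonneg _) (hA _) two_pos'.le)⟩
      map_add' := by
        intro z w
        ext n
        change A ((z + w : lp (fun _ : ℕ => X) 2) n) = A (z n) + A (w n)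
        rw [lp.coeFn_add, Pi.add_apply, map_add]
      map_smul' := by
        intro a z
        ext n
        change A ((a • z : lp (fun _ : ℕ => X) 2) n) = a • A (z n)
        rw [lp.coeFn_smul, Pi.smul_apply, map_smul] } 1 (fun z => by
          rw [one_mul]
          refine lp.norm_le_of_forall_sum_le two_pos' (norm_nonneg z) (fun s => ?_)
          refine le_trans (Finset.sum_le_sum fun i _ => ?_) (lp.sum_rpow_le_norm_rpow two_pos' z s)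
          exact Real.rpow_le_rpow (norm_nonneg _) (hA _) two_pos'.le)

lemma mapL_apply (A : X →L[𝕜] Y) (hA : ∀ x, ‖A x‖ ≤ ‖x‖) (z : lp (fun _ : ℕ => X) 2) (n : ℕ) :
    mapL A hA z n = A (z n) := rfl

/-- The property passes to finite direct sums. -/
theorem sum_has [CompleteSpace X] [CompleteSpace Y]
    (hX : CopyIn 𝕜 (lp (fun _ : ℕ => X) 2) (Lp X 1 mu))
    (hY : CopyIn 𝕜 (lp (fun _ : ℕ => Y) 2) (Lp Y 1 mu)) :
    CopyIn 𝕜 (lp (fun _ : ℕ => X × Y) 2) (Lp (X × Y) 1 mu) := by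
  obtain ⟨T, c, hc, hT⟩ := hX
  obtain ⟨S, d, hd, hS⟩ := hY
  obtain ⟨F, hF⟩ : ∃ F, F = mapL (ContinuousLinearMap.fst 𝕜 X Y) (fun z => norm_fst_le z) := ⟨_, rfl⟩
  obtain ⟨G, hG⟩ : ∃ G, G = mapL (ContinuousLinearMap.snd 𝕜 X Y) (fun z => norm_snd_le z) := ⟨_, rfl⟩
  obtain ⟨a, ha⟩ : ∃ a : Lp X 1 mu →L[𝕜] Lp (X × Y) 1 mu,
    a = (ContinuousLinearMap.inl 𝕜 X Y).compLpL 1 mu := ⟨_, rfl⟩
  obtain ⟨b, hb⟩ : ∃ b : Lp Y 1 mu →L[𝕜] Lp (X × Y) 1 mu,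
    b = (ContinuousLinearMap.inr 𝕜 X Y).compLpL 1 mu := ⟨_, rfl⟩
  obtain ⟨a', ha'⟩ : ∃ a' : Lp (X × Y) 1 mu →L[𝕜] Lp X 1 mu,
    a' = (ContinuousLinearMap.fst 𝕜 X Y).compLpL 1 mu := ⟨_, rfl⟩
  obtain ⟨b', hb'⟩ : ∃ b' : Lp (X × Y) 1 mu →L[𝕜] Lp Y 1 mu,
    b' = (ContinuousLinearMap.snd 𝕜 X Y).compLpL 1 mu := ⟨_, rfl⟩
  have h1 : ∀ (u : Lp X 1 mu) (v : Lp Y 1 mu), a' (a u + b v) = u := by
    intro u v
    rw [ha, hb, ha']
    apply Lp.ext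
    have e1 := (ContinuousLinearMap.fst 𝕜 X Y).coeFn_compLp
      ((ContinuousLinearMap.inl 𝕜 X Y).compLp u + (ContinuousLinearMap.inr 𝕜 X Y).compLp v)
    have e2 := Lp.coeFn_add ((ContinuousLinearMap.inl 𝕜 X Y).compLp u)
      ((ContinuousLinearMap.inr 𝕜 X Y).compLp v)
    have e3 := (ContinuousLinearMap.inl 𝕜 X Y).coeFn_compLp u
    have e4 := (ContinuousLinearMap.inr 𝕜 X Y).coeFn_compLp v
    filter_upwards [e1, e2, e3, e4] with t t1 t2 t3 t4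
    refine t1.trans ?_
    rw [t2, Pi.add_apply, t3, t4]
    simp
  have h2 : ∀ (u : Lp X 1 mu) (v : Lp Y 1 mu), b' (a u + b v) = v := by
    intro u v
    rw [ha, hb, hb']
    apply Lp.ext
    have e1 := (ContinuousLinearMap.snd 𝕜 X Y).coeFn_compLp
      ((ContinuousLinearMap.inl 𝕜 X Y).compLp u + (ContinuousLinearMap.inr 𝕜 X Y).compLp v)
    have e2 := Lp.coeFn_add ((ContinuousLinearMap.inl 𝕜 X Y).compLp u)
      ((ContinuousLinearMap.inr 𝕜 X Y).compLp v)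
    have e3 := (ContinuousLinearMap.inl 𝕜 X Y).coeFn_compLp u
    have e4 := (ContinuousLinearMap.inr 𝕜 X Y).coeFn_compLp v
    filter_upwards [e1, e2, e3, e4] with t t1 t2 t3 t4
    refine t1.trans ?_
    rw [t2, Pi.add_apply, t3, t4]
    simp
  have h3 : ∀ z : lp (fun _ : ℕ => X × Y) 2, ‖z‖ ≤ ‖F z‖ + ‖G z‖ := by
    intro z
    refine lp.norm_le_of_forall_sum_le two_pos' (by positivity) (fun s => ?_)
    have f1 := lp.sum_rpow_le_norm_rpow two_pos' (F z) s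
    have f2 := lp.sum_rpow_le_norm_rpow two_pos' (G z) s
    have e2 : (2 : ℝ≥0∞).toReal = ((2 : ℕ) : ℝ) := by norm_num
    simp only [e2, Real.rpow_natCast] at f1 f2 ⊢
    have f3 : ∑ i ∈ s, ‖z i‖ ^ 2 ≤ ∑ i ∈ s, ‖F z i‖ ^ 2 + ∑ i ∈ s, ‖G z i‖ ^ 2 := by
      rw [← Finset.sum_add_distrib]
      refine Finset.sum_le_sum fun i _ => ?_
      have g1 : ‖F z i‖ = ‖(z i).1‖ := by rw [hF]; rfl
      have g2 : ‖G z i‖ = ‖(z i).2‖ := by rw [hG]; rfl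
      rw [g1, g2, Prod.norm_def]
      rcases max_cases ‖(z i).1‖ ‖(z i).2‖ with h | h <;> rw [h.1] <;> nlinarith [sq_nonneg ‖(z i).1‖, sq_nonneg ‖(z i).2‖]
    nlinarith [norm_nonneg (F z), norm_nonneg (G z)]
  refine ⟨(a.comp (T.comp F)) + (b.comp (S.comp G)), ((‖a'‖ + 1) / c + (‖b'‖ + 1) / d)⁻¹,
    by positivity, fun z => ?_⟩
  obtain ⟨R, hR⟩ : ∃ R, R = ((a.comp (T.comp F)) + (b.comp (S.comp G))) z := ⟨_, rfl⟩
  rw [← hR]
  simp only [add_apply, ContinuousLinearMap.comp_apply] at hR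
  have r1 : a' R = T (F z) := by rw [hR]; exact h1 _ _
  have r2 : b' R = S (G z) := by rw [hR]; exact h2 _ _
  have r3 : ‖F z‖ ≤ (‖a'‖ + 1) / c * ‖R‖ := by
    rw [div_mul_eq_mul_div, le_div_iff₀ hc, mul_comm]
    calc c * ‖F z‖ ≤ ‖T (F z)‖ := hT _
      _ = ‖a' R‖ := by rw [r1]
      _ ≤ ‖a'‖ * ‖R‖ := a'.le_opNorm _
      _ ≤ (‖a'‖ + 1) * ‖R‖ := by gcongr; linarith
  have r4 : ‖G z‖ ≤ (‖b'‖ + 1) / d * ‖R‖ := by
    rw [div_mul_eq_mul_div, le_div_iff₀ hd, mul_comm]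
    calc d * ‖G z‖ ≤ ‖S (G z)‖ := hS _
      _ = ‖b' R‖ := by rw [r2]
      _ ≤ ‖b'‖ * ‖R‖ := b'.le_opNorm _
      _ ≤ (‖b'‖ + 1) * ‖R‖ := by gcongr; linarith
  rw [inv_mul_le_iff₀ (by positivity)]
  have := h3 z
  nlinarith

end sum

end Pool.Agent.Y225.DS
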